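import Pool.Agent.TH198.AT.Stmts2
import Pool.Agent.TH811.AT.HEATX
import Pool.Agent.TH81.AT.CM

/-!
# The strict form of THE CLAIM (de Almeida–Thouless line)

`t_CLAIMS (hS : St_STEIN) (hW : St_W) : St_CLAIMS`.
-/

set_option autoImplicit false

open MeasureTheory ProbabilityTheory Set

namespace Pool.TH47.AT

open Pool.TH198.AT

/-! ### hyperbolic functions -/

theorem sech_pos (x : ℝ) : 0 < sech x := inv_pos.2 (Real.cosh_pos x)

theorem sech_le_one (x : ℝ) : sech x ≤ 1 := inv_le_one_of_one_le₀ (Real.one_le_cosh x)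

theorem sech_mul_cosh (x : ℝ) : sech x * Real.cosh x = 1 :=
  inv_mul_cancel₀ (Real.cosh_pos x).ne'

theorem sech_neg (x : ℝ) : sech (-x) = sech x := by simp [sech, Real.cosh_neg]

theorem tanh_eq (x : ℝ) : Real.tanh x = Real.sinh x * sech x := by
  rw [Real.tanh_eq_sinh_div_cosh, sech, div_eq_mul_inv]

theorem tanh_sq (x : ℝ) : Real.tanh x ^ 2 = 1 - sech x ^ 2 := by
  rw [tanh_eq, mul_pow]
  have h1 := Real.cosh_sq x
  have h2 := sech_mul_cosh x
  have h3 : Real.sinh x ^ 2 = Real.cosh x ^ 2 - 1 := by linarith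
  rw [h3]
  have h4 : (Real.cosh x ^ 2 - 1) * sech x ^ 2 = (sech x * Real.cosh x) ^ 2 - sech x ^ 2 := by
    ring
  rw [h4, h2]; ring

theorem abs_tanh_le (x : ℝ) : |Real.tanh x| ≤ 1 := by
  rw [← abs_one, ← sq_le_sq, tanh_sq]
  nlinarith [sq_nonneg (sech x)]

theorem hasDerivAt_sech (x : ℝ) : HasDerivAt sech (-(sech x * Real.tanh x)) x := by
  have h := (Real.hasDerivAt_cosh x).inv (Real.cosh_pos x).ne'
  have e : -Real.sinh x / Real.cosh x ^ 2 = -(sech x * Real.tanh x) := by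
    rw [tanh_eq, sech]
    field_simp
  rw [e] at h
  exact h

theorem hasDerivAt_tanh (x : ℝ) : HasDerivAt Real.tanh (sech x ^ 2) x := by
  have h := (Real.hasDerivAt_sinh x).mul (hasDerivAt_sech x)
  have e : Real.cosh x * sech x + Real.sinh x * -(sech x * Real.tanh x) = sech x ^ 2 := by
    have h2 := sech_mul_cosh x
    have h3 := tanh_sq x
    have h4 := tanh_eq x
    have : Real.sinh x * -(sech x * Real.tanh x) = -(Real.tanh x ^ 2) := by
      rw [h4]; ring
    rw [this, h3, mul_comm (Real.cosh x), h2]; ring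
  rw [e] at h
  refine h.congr_of_eventuallyEq (Filter.Eventually.of_forall fun y => ?_)
  exact tanh_eq y

theorem continuous_sech : Continuous sech :=
  continuous_iff_continuousAt.2 fun x => (hasDerivAt_sech x).continuousAt

theorem continuous_tanh : Continuous Real.tanh :=
  continuous_iff_continuousAt.2 fun x => (hasDerivAt_tanh x).continuousAt

theorem sech_pow_le (x : ℝ) (n : ℕ) : |sech x ^ n| ≤ 1 := by
  rw [abs_of_nonneg (pow_nonneg (sech_pos x).le n)]
  exact pow_le_one₀ (sech_pos x).le (sech_le_one x)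

/-! ### the function `sech³` and its derivatives -/

noncomputable def a0 (x : ℝ) : ℝ := sech x ^ 3
noncomputable def a1 (x : ℝ) : ℝ := -(3 * sech x ^ 3 * Real.tanh x)
noncomputable def a2 (x : ℝ) : ℝ := 9 * sech x ^ 3 - 12 * sech x ^ 5
noncomputable def a3 (x : ℝ) : ℝ := -(27 * sech x ^ 3 * Real.tanh x) + 60 * sech x ^ 5 * Real.tanh x

theorem d0 (x : ℝ) : HasDerivAt a0 (a1 x) x := by
  have h := (hasDerivAt_sech x).pow 3
  refine h.congr_deriv ?_
  unfold a1; push_cast; ring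

theorem d1 (x : ℝ) : HasDerivAt a1 (a2 x) x := by
  have h := ((((hasDerivAt_sech x).pow 3).const_mul 3).mul (hasDerivAt_tanh x)).neg
  refine h.congr_deriv ?_
  have h3 := tanh_sq x
  have : 3 * (((3 : ℕ) : ℝ) * sech x ^ (3 - 1) * -(sech x * Real.tanh x)) * Real.tanh x =
      -(9 * sech x ^ 3 * Real.tanh x ^ 2) := by push_cast; ring
  unfold a2
  simp only [Pi.pow_apply] at *
  rw [this, h3]
  ring

theorem d2 (x : ℝ) : HasDerivAt a2 (a3 x) x := by
  have h := (((hasDerivAt_sech x).pow 3).const_mul 9).sub (((hasDerivAt_sech x).pow 5).const_mul 12)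
  refine h.congr_deriv ?_
  unfold a3; push_cast; ring

theorem b0 (x : ℝ) : |a0 x| ≤ 1 := sech_pow_le x 3

theorem b1 (x : ℝ) : |a1 x| ≤ 3 := by
  unfold a1
  rw [abs_neg, abs_mul, abs_mul, abs_of_nonneg (by norm_num : (0 : ℝ) ≤ 3)]
  have h1 := sech_pow_le x 3
  have h2 := abs_tanh_le x
  have h3 := abs_nonneg (sech x ^ 3)
  have h4 := abs_nonneg (Real.tanh x)
  nlinarith

theorem b2 (x : ℝ) : |a2 x| ≤ 21 := by
  unfold a2
  have h1 := abs_le.1 (sech_pow_le x 3)
  have h2 := abs_le.1 (sech_pow_le x 5)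
  rw [abs_le]
  constructor <;> linarith [h1.1, h1.2, h2.1, h2.2]

theorem b3 (x : ℝ) : |a3 x| ≤ 87 := by
  unfold a3
  have h1 : |sech x ^ 3 * Real.tanh x| ≤ 1 := by
    rw [abs_mul]
    exact mul_le_one₀ (sech_pow_le x 3) (abs_nonneg _) (abs_tanh_le x)
  have h2 : |sech x ^ 5 * Real.tanh x| ≤ 1 := by
    rw [abs_mul]
    exact mul_le_one₀ (sech_pow_le x 5) (abs_nonneg _) (abs_tanh_le x)
  have h1 := abs_le.1 h1
  have h2 := abs_le.1 h2
  rw [abs_le]
  constructor <;> linarith [h1.1, h1.2, h2.1, h2.2]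

theorem c0 : Continuous a0 := continuous_iff_continuousAt.2 fun x => (d0 x).continuousAt
theorem c1 : Continuous a1 := continuous_iff_continuousAt.2 fun x => (d1 x).continuousAt
theorem c2 : Continuous a2 := continuous_iff_continuousAt.2 fun x => (d2 x).continuousAt
theorem c3 : Continuous a3 := by
  unfold a3
  have := continuous_sech
  have := continuous_tanh
  fun_prop

/-! ### heat extension -/

noncomputable def P (σ : ℝ) (f : ℝ → ℝ) (x : ℝ) : ℝ := E1 (fun y => f (x + σ * y))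

theorem P_bdd (σ : ℝ) (f : ℝ → ℝ) (C : ℝ) (hC : ∀ x, |f x| ≤ C) (x : ℝ) : |P σ f x| ≤ C := by
  unfold P E1
  have := norm_integral_le_of_norm_le_const (μ := gaussianReal 0 1)
    (f := fun y => f (x + σ * y)) (C := C) (Filter.Eventually.of_forall fun y => hC _)
  simpa using this

theorem P_neg (σ : ℝ) (f : ℝ → ℝ) (c : ℝ) (hf : ∀ x, f (-x) = c * f x) (x : ℝ) :
    P σ f (-x) = c * P σ f x := by
  unfold P
  rw [← CMf.flip (fun y => f (-x + σ * y))]
  unfold E1
  rw [← integral_const_mul]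
  refine integral_congr_ae (Filter.Eventually.of_forall fun y => ?_)
  simp only
  rw [← hf]
  congr 1
  ring

theorem intg (σ : ℝ) (f : ℝ → ℝ) (C : ℝ) (hf : Continuous f) (hC : ∀ x, |f x| ≤ C) (x : ℝ) :
    Integrable (fun y => f (x + σ * y)) (gaussianReal 0 1) := by
  refine Integrable.mono' (integrable_const C) (hf.comp (by fun_prop)).aestronglyMeasurable ?_
  exact Filter.Eventually.of_forall fun y => hC _

theorem P_pos (σ : ℝ) (f : ℝ → ℝ) (C : ℝ) (hf : Continuous f) (hC : ∀ x, |f x| ≤ C)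
    (hp : ∀ x, 0 < f x) (x : ℝ) : 0 < P σ f x := by
  unfold P E1
  rw [integral_pos_iff_support_of_nonneg (fun y => (hp _).le) (intg σ f C hf hC x)]
  have : Function.support (fun y => f (x + σ * y)) = univ := by
    ext y; simp [(hp (x + σ * y)).ne']
  rw [this]
  simp

theorem D0 (σ x : ℝ) : HasDerivAt (P σ a0) (P σ a1 x) x :=
  Pool.TH811.AT.t_HEATX a0 a1 3 d0 c1 b1 σ x

theorem D1 (σ x : ℝ) : HasDerivAt (P σ a1) (P σ a2 x) x :=
  Pool.TH811.AT.t_HEATX a1 a2 21 d1 c2 b2 σ x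

theorem D2 (σ x : ℝ) : HasDerivAt (P σ a2) (P σ a3 x) x :=
  Pool.TH811.AT.t_HEATX a2 a3 87 d2 c3 b3 σ x

theorem C0 (σ : ℝ) : Continuous (P σ a0) :=
  continuous_iff_continuousAt.2 fun x => (D0 σ x).continuousAt
theorem C1 (σ : ℝ) : Continuous (P σ a1) :=
  continuous_iff_continuousAt.2 fun x => (D1 σ x).continuousAt
theorem C2 (σ : ℝ) : Continuous (P σ a2) :=
  continuous_iff_continuousAt.2 fun x => (D2 σ x).continuousAt

theorem kk_eq (x : ℝ) : kk x = (a0 x - a2 x) / 2 := by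
  unfold kk a0 a2; ring

theorem P_kk (σ x : ℝ) : E1 (fun y => kk (x + σ * y)) = (P σ a0 x - P σ a2 x) / 2 := by
  unfold P E1
  rw [← integral_sub (intg σ a0 1 c0 b0 x) (intg σ a2 21 c2 b2 x), ← integral_div]
  exact integral_congr_ae (Filter.Eventually.of_forall fun y => kk_eq _)

/-! ### exponentially bounded functions -/

def EB (f : ℝ → ℝ) : Prop := ∃ C K : ℝ, 0 ≤ C ∧ 0 ≤ K ∧ ∀ x, |f x| ≤ C * Real.exp (K * |x|)

theorem EB.mul {f g : ℝ → ℝ} (hf : EB f) (hg : EB g) : EB (fun x => f x * g x) := by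
  obtain ⟨C, K, hC, hK, h⟩ := hf
  obtain ⟨D, L, hD, hL, h'⟩ := hg
  refine ⟨C * D, K + L, by positivity, by positivity, fun x => ?_⟩
  rw [abs_mul]
  calc |f x| * |g x| ≤ (C * Real.exp (K * |x|)) * (D * Real.exp (L * |x|)) :=
        mul_le_mul (h x) (h' x) (abs_nonneg _) (by positivity)
    _ = C * D * Real.exp ((K + L) * |x|) := by rw [add_mul, Real.exp_add]; ring

theorem EB.add {f g : ℝ → ℝ} (hf : EB f) (hg : EB g) : EB (fun x => f x + g x) := by
  obtain ⟨C, K, hC, hK, h⟩ := hf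
  obtain ⟨D, L, hD, hL, h'⟩ := hg
  refine ⟨C + D, K + L, by positivity, by positivity, fun x => ?_⟩
  have e1 : Real.exp (K * |x|) ≤ Real.exp ((K + L) * |x|) := by
    apply Real.exp_le_exp.2
    have := mul_nonneg hL (abs_nonneg x)
    linarith
  have e2 : Real.exp (L * |x|) ≤ Real.exp ((K + L) * |x|) := by
    apply Real.exp_le_exp.2
    have := mul_nonneg hK (abs_nonneg x)
    linarith
  calc |f x + g x| ≤ |f x| + |g x| := abs_add_le _ _
    _ ≤ C * Real.exp (K * |x|) + D * Real.exp (L * |x|) := add_le_add (h x) (h' x)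
    _ ≤ C * Real.exp ((K + L) * |x|) + D * Real.exp ((K + L) * |x|) := by gcongr
    _ = (C + D) * Real.exp ((K + L) * |x|) := by ring

theorem EB.bdd {f : ℝ → ℝ} (C : ℝ) (h : ∀ x, |f x| ≤ C) : EB f := by
  refine ⟨C, 0, (abs_nonneg _).trans (h 0), le_rfl, fun x => ?_⟩
  simpa using h x

theorem EB.neg {f : ℝ → ℝ} (hf : EB f) : EB (fun x => -f x) := by
  obtain ⟨C, K, hC, hK, h⟩ := hf
  exact ⟨C, K, hC, hK, fun x => by rw [abs_neg]; exact h x⟩

theorem EB.sub {f g : ℝ → ℝ} (hf : EB f) (hg : EB g) : EB (fun x => f x - g x) := by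
  simpa [sub_eq_add_neg] using hf.add hg.neg

theorem EB.scale {f : ℝ → ℝ} (hf : EB f) (c : ℝ) : EB (fun x => f (c * x)) := by
  obtain ⟨C, K, hC, hK, h⟩ := hf
  refine ⟨C, K * |c|, hC, by positivity, fun x => ?_⟩
  have := h (c * x)
  rwa [abs_mul, ← mul_assoc] at this

theorem EB.id : EB (fun x : ℝ => x) := by
  refine ⟨1, 1, zero_le_one, zero_le_one, fun x => ?_⟩
  have := Real.add_one_le_exp |x|
  rw [one_mul, one_mul]
  linarith

theorem EB.cosh : EB Real.cosh := by
  refine ⟨1, 1, zero_le_one, zero_le_one, fun x => ?_⟩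
  rw [one_mul, one_mul, abs_of_pos (Real.cosh_pos x), Real.cosh_eq]
  have h1 : Real.exp x ≤ Real.exp |x| := Real.exp_le_exp.2 (le_abs_self x)
  have h2 : Real.exp (-x) ≤ Real.exp |x| := Real.exp_le_exp.2 (neg_le_abs x)
  linarith

theorem EB.sinh : EB Real.sinh := by
  refine ⟨1, 1, zero_le_one, zero_le_one, fun x => ?_⟩
  rw [one_mul, one_mul, Real.sinh_eq, abs_le]
  have h1 : Real.exp x ≤ Real.exp |x| := Real.exp_le_exp.2 (le_abs_self x)
  have h2 : Real.exp (-x) ≤ Real.exp |x| := Real.exp_le_exp.2 (neg_le_abs x)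
  have h3 := Real.exp_pos x
  have h4 := Real.exp_pos (-x)
  constructor <;> linarith

theorem EB.integrable {f : ℝ → ℝ} (hf : EB f) (hc : Continuous f) :
    Integrable f (gaussianReal 0 1) := by
  obtain ⟨C, K, hC, hK, h⟩ := hf
  refine Integrable.mono' (g := fun x => C * (Real.exp (K * x) + Real.exp (-K * x)))
    (((integrable_exp_mul_gaussianReal (μ := 0) (v := 1) K).add
      (integrable_exp_mul_gaussianReal (μ := 0) (v := 1) (-K))).const_mul C)
    hc.aestronglyMeasurable ?_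
  refine Filter.Eventually.of_forall fun x => ?_
  rw [Real.norm_eq_abs]
  refine (h x).trans ?_
  refine mul_le_mul_of_nonneg_left ?_ hC
  rcases abs_cases x with ⟨e, _⟩ | ⟨e, _⟩
  · rw [e]; linarith [Real.exp_pos (-K * x)]
  · rw [e]
    have : K * -x = -K * x := by ring
    rw [this]; linarith [Real.exp_pos (K * x)]

/-! ### the elementary inequality, strict form -/

theorem tanh_strictMono : StrictMono Real.tanh :=
  strictMono_of_hasDerivAt_pos hasDerivAt_tanh (fun x => pow_pos (sech_pos x) 2)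

theorem tanh_pos' {x : ℝ} (hx : 0 < x) : 0 < Real.tanh x := by
  have := tanh_strictMono hx
  rwa [Real.tanh_zero] at this

theorem tanh_strict (s l x : ℝ) (hs : 0 < s) (hl : 0 ≤ l) (hls : l ^ 2 ≤ 2 + 1 / s) (hx : 0 < x) :
    l * Real.tanh (l * x) < 2 * Real.tanh x + x / s := by
  have hxs : 0 < x / s := by positivity
  rcases le_or_gt l 1 with h | h
  · have h1 : Real.tanh (l * x) ≤ Real.tanh x := tanh_strictMono.monotone (by nlinarith)
    have h2 := tanh_pos' hx
    have h3 : 0 ≤ Real.tanh (l * x) := by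
      have := tanh_strictMono.monotone (mul_nonneg hl hx.le)
      rwa [Real.tanh_zero] at this
    nlinarith
  set g : ℝ → ℝ := fun y => 2 * Real.tanh y + y / s - l * Real.tanh (l * y) with hg
  have hd : ∀ y : ℝ, HasDerivAt g (2 * sech y ^ 2 + 1 / s - l ^ 2 * sech (l * y) ^ 2) y := by
    intro y
    have h1 := (hasDerivAt_tanh y).const_mul 2
    have h2 := (hasDerivAt_id y).div_const s
    have h3 : HasDerivAt (fun y => l * y) l y := by
      simpa using (hasDerivAt_id y).const_mul l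
    have h4 := ((hasDerivAt_tanh (l * y)).comp y h3).const_mul l
    refine ((h1.add h2).sub h4).congr_deriv ?_
    ring
  have hpos : ∀ y : ℝ, 0 < y → 0 < 2 * sech y ^ 2 + 1 / s - l ^ 2 * sech (l * y) ^ 2 := by
    intro y hy
    have hsp : 0 < 1 / s := by positivity
    have hc : Real.cosh y < Real.cosh (l * y) := by
      rw [Real.cosh_lt_cosh, abs_of_pos hy, abs_of_pos (by positivity)]
      nlinarith
    have h1 : sech (l * y) < sech y := by
      unfold sech
      exact inv_strictAnti₀ (Real.cosh_pos y) hc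
    have h2 : sech (l * y) < 1 := lt_of_lt_of_le h1 (sech_le_one y)
    have h3 := sech_pos (l * y)
    have h4 : sech (l * y) ^ 2 < sech y ^ 2 := by nlinarith
    have h5 : sech (l * y) ^ 2 < 1 := by nlinarith
    have h6 : l ^ 2 * sech (l * y) ^ 2 ≤ (2 + 1 / s) * sech (l * y) ^ 2 :=
      mul_le_mul_of_nonneg_right hls (sq_nonneg _)
    nlinarith
  have hcont : Continuous g := continuous_iff_continuousAt.2 fun y => (hd y).continuousAt
  have hm : StrictMonoOn g (Ici 0) := by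
    apply strictMonoOn_of_deriv_pos (convex_Ici 0) hcont.continuousOn
    intro y hy
    rw [interior_Ici] at hy
    rw [(hd y).deriv]
    exact hpos y hy
  have := hm (mem_Ici.2 le_rfl : (0 : ℝ) ∈ Ici 0) (mem_Ici.2 hx.le) hx
  simp only [hg, mul_zero, Real.tanh_zero, zero_div] at this
  linarith

/-! ### the functions of the proof -/

noncomputable def rho (l x : ℝ) : ℝ := Real.cosh (l * x) * sech x ^ 2
noncomputable def rho1 (l x : ℝ) : ℝ :=
  l * Real.sinh (l * x) * sech x ^ 2 - 2 * Real.cosh (l * x) * sech x ^ 2 * Real.tanh x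
noncomputable def k0 (σ x : ℝ) : ℝ := Real.cosh x * P σ a1 x - Real.sinh x * P σ a0 x
noncomputable def k1 (σ x : ℝ) : ℝ := Real.cosh x * (P σ a2 x - P σ a0 x)
noncomputable def FF (σ l x : ℝ) : ℝ := rho l x * k0 σ x
noncomputable def F1 (σ l x : ℝ) : ℝ := rho1 l x * k0 σ x + rho l x * k1 σ x
noncomputable def AA (σ l x : ℝ) : ℝ := Real.cosh (l * x) * (sech x * (P σ a0 x - P σ a2 x))
noncomputable def BB (σ l s x : ℝ) : ℝ := (rho1 l x - x / s * rho l x) * k0 σ x

theorem drho (l x : ℝ) : HasDerivAt (rho l) (rho1 l x) x := by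
  have h3 : HasDerivAt (fun y => l * y) l x := by
    simpa using (hasDerivAt_id x).const_mul l
  have h1 := (Real.hasDerivAt_cosh (l * x)).comp x h3
  have h2 := (hasDerivAt_sech x).pow 2
  refine (h1.mul h2).congr_deriv ?_
  unfold rho1
  simp only [Function.comp, Pi.pow_apply]
  push_cast; ring

theorem dk0 (σ x : ℝ) : HasDerivAt (k0 σ) (k1 σ x) x := by
  have h1 := (Real.hasDerivAt_cosh x).mul (D1 σ x)
  have h2 := (Real.hasDerivAt_sinh x).mul (D0 σ x)
  refine (h1.sub h2).congr_deriv ?_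
  unfold k1
  ring

theorem dFF (σ l x : ℝ) : HasDerivAt (FF σ l) (F1 σ l x) x := (drho l x).mul (dk0 σ x)

theorem F1_eq (σ l x : ℝ) : F1 σ l x = rho1 l x * k0 σ x - AA σ l x := by
  unfold F1 AA k1 rho
  have := sech_mul_cosh x
  have e : Real.cosh (l * x) * sech x ^ 2 * (Real.cosh x * (P σ a2 x - P σ a0 x)) =
      Real.cosh (l * x) * sech x * (sech x * Real.cosh x) * (P σ a2 x - P σ a0 x) := by ring
  rw [e, this]
  ring

theorem AB (σ l s x : ℝ) : AA σ l x - BB σ l s x = x / s * FF σ l x - F1 σ l x := by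
  rw [F1_eq]; unfold BB FF; ring

/-! ### growth and continuity -/

theorem EBsech2 : EB (fun x => sech x ^ 2) := EB.bdd 1 fun x => sech_pow_le x 2
theorem EBsech : EB sech := EB.bdd 1 fun x => by simpa using sech_pow_le x 1
theorem EBtanh : EB Real.tanh := EB.bdd 1 abs_tanh_le
theorem EBP0 (σ : ℝ) : EB (P σ a0) := EB.bdd 1 (P_bdd σ a0 1 b0)
theorem EBP1 (σ : ℝ) : EB (P σ a1) := EB.bdd 3 (P_bdd σ a1 3 b1)
theorem EBP2 (σ : ℝ) : EB (P σ a2) := EB.bdd 21 (P_bdd σ a2 21 b2)
theorem EBc (c : ℝ) : EB (fun _ => c) := EB.bdd |c| fun _ => le_rfl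

theorem EBrho (l : ℝ) : EB (rho l) := (EB.cosh.scale l).mul EBsech2
theorem EBrho1 (l : ℝ) : EB (rho1 l) :=
  (((EBc l).mul (EB.sinh.scale l)).mul EBsech2).sub
    ((((EBc 2).mul (EB.cosh.scale l)).mul EBsech2).mul EBtanh)
theorem EBk0 (σ : ℝ) : EB (k0 σ) := (EB.cosh.mul (EBP1 σ)).sub (EB.sinh.mul (EBP0 σ))
theorem EBk1 (σ : ℝ) : EB (k1 σ) := EB.cosh.mul ((EBP2 σ).sub (EBP0 σ))
theorem EBFF (σ l : ℝ) : EB (FF σ l) := (EBrho l).mul (EBk0 σ)
theorem EBF1 (σ l : ℝ) : EB (F1 σ l) := ((EBrho1 l).mul (EBk0 σ)).add ((EBrho l).mul (EBk1 σ))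
theorem EBAA (σ l : ℝ) : EB (AA σ l) :=
  (EB.cosh.scale l).mul (EBsech.mul ((EBP0 σ).sub (EBP2 σ)))
theorem EBBB (σ l s : ℝ) : EB (BB σ l s) := by
  have h : EB (fun x : ℝ => x / s) := by
    have := (EBc s⁻¹).mul EB.id
    refine (Eq.mpr ?_ this)
    congr 1
    funext x
    rw [div_eq_mul_inv, mul_comm]
  exact ((EBrho1 l).sub (h.mul (EBrho l))).mul (EBk0 σ)

theorem Crho (l : ℝ) : Continuous (rho l) :=
  continuous_iff_continuousAt.2 fun x => (drho l x).continuousAt
theorem Crho1 (l : ℝ) : Continuous (rho1 l) := by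
  unfold rho1
  have := continuous_sech
  have := continuous_tanh
  fun_prop
theorem Ck0 (σ : ℝ) : Continuous (k0 σ) :=
  continuous_iff_continuousAt.2 fun x => (dk0 σ x).continuousAt
theorem Ck1 (σ : ℝ) : Continuous (k1 σ) :=
  Real.continuous_cosh.mul ((C2 σ).sub (C0 σ))
theorem CFF (σ l : ℝ) : Continuous (FF σ l) := (Crho l).mul (Ck0 σ)
theorem CF1 (σ l : ℝ) : Continuous (F1 σ l) :=
  ((Crho1 l).mul (Ck0 σ)).add ((Crho l).mul (Ck1 σ))
theorem CAA (σ l : ℝ) : Continuous (AA σ l) :=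
  (Real.continuous_cosh.comp (by fun_prop)).mul (continuous_sech.mul ((C0 σ).sub (C2 σ)))
theorem CBB (σ l s : ℝ) : Continuous (BB σ l s) :=
  ((Crho1 l).sub ((by fun_prop : Continuous fun x : ℝ => x / s).mul (Crho l))).mul (Ck0 σ)

theorem EB.integrable' {f : ℝ → ℝ} (hf : EB f) (hc : Continuous f) (c : ℝ) :
    Integrable (fun z => f (c * z)) (gaussianReal 0 1) :=
  (hf.scale c).integrable (hc.comp (by fun_prop))

/-! ### the identity -/

theorem main_id (hS : St_STEIN) (σ l s : ℝ) (hs : 0 < s) :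
    E1 (fun z => AA σ l (√s * z)) = E1 (fun z => BB σ l s (√s * z)) := by
  have hq : 0 < √s := Real.sqrt_pos.2 hs
  have hq2 : √s * √s = s := Real.mul_self_sqrt hs.le
  have hE1 : EB (fun z => FF σ l (√s * z)) := (EBFF σ l).scale _
  have hE2 : EB (fun z => √s * F1 σ l (√s * z)) := (EBc _).mul ((EBF1 σ l).scale _)
  obtain ⟨C, K, hC, hK, h1⟩ := hE1
  obtain ⟨D, L, hD, hL, h2⟩ := hE2
  have hst := hS (fun z => FF σ l (√s * z)) (fun z => √s * F1 σ l (√s * z)) (C + D) (K + L)
    (by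
      intro z
      have h3 : HasDerivAt (fun y => √s * y) (√s) z := by
        simpa using (hasDerivAt_id z).const_mul (√s)
      have := (dFF σ l (√s * z)).comp z h3
      rw [mul_comm] at this
      exact this)
    (continuous_const.mul ((CF1 σ l).comp (by fun_prop)))
    (by
      intro z
      refine (h1 z).trans ?_
      have e1 : Real.exp (K * |z|) ≤ Real.exp ((K + L) * |z|) := by
        apply Real.exp_le_exp.2
        have := mul_nonneg hL (abs_nonneg z)
        linarith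
      have e2 := Real.exp_pos ((K + L) * |z|)
      nlinarith)
    (by
      intro z
      refine (h2 z).trans ?_
      have e1 : Real.exp (L * |z|) ≤ Real.exp ((K + L) * |z|) := by
        apply Real.exp_le_exp.2
        have := mul_nonneg hK (abs_nonneg z)
        linarith
      have e2 := Real.exp_pos ((K + L) * |z|)
      nlinarith)
  have hiA := (EBAA σ l).integrable' (CAA σ l) (√s)
  have hiB := (EBBB σ l s).integrable' (CBB σ l s) (√s)
  have hi1 : Integrable (fun z => z * FF σ l (√s * z)) (gaussianReal 0 1) :=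
    (EB.id.mul ((EBFF σ l).scale _)).integrable
      (continuous_id.mul ((CFF σ l).comp (by fun_prop)))
  have hi2 : Integrable (fun z => √s * F1 σ l (√s * z)) (gaussianReal 0 1) :=
    ((EBc _).mul ((EBF1 σ l).scale _)).integrable
      (continuous_const.mul ((CF1 σ l).comp (by fun_prop)))
  unfold E1 at hst ⊢
  rw [← sub_eq_zero, ← integral_sub hiA hiB]
  have : ∀ z : ℝ, AA σ l (√s * z) - BB σ l s (√s * z) =
      (√s)⁻¹ * (z * FF σ l (√s * z) - √s * F1 σ l (√s * z)) := by
    intro z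
    rw [AB]
    have e : √s * z / s = (√s)⁻¹ * z := by
      rw [inv_mul_eq_div, div_eq_div_iff hs.ne' hq.ne']
      calc √s * z * √s = (√s * √s) * z := by ring
        _ = z * s := by rw [hq2, mul_comm]
    rw [e, mul_sub, ← mul_assoc, ← mul_assoc, inv_mul_cancel₀ hq.ne', one_mul]
  simp_rw [this]
  rw [integral_const_mul, integral_sub hi1 hi2, hst, sub_self, mul_zero]

/-! ### positivity -/

theorem k0_neg (hW : St_W) (v x : ℝ) (hv : 0 ≤ v) (hx : 0 < x) : k0 (√v) x < 0 := by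
  have h1 : P (√v) a1 x ≤ 0 := hW v x hv hx.le
  have h2 : 0 < P (√v) a0 x := P_pos _ a0 1 c0 b0 (fun y => pow_pos (sech_pos y) 3) x
  have h3 := Real.cosh_pos x
  have h4 : 0 < Real.sinh x := Real.sinh_pos_iff.2 hx
  unfold k0
  nlinarith [mul_nonneg h3.le (neg_nonneg.2 h1), mul_pos h4 h2]

theorem rho_neg (s l x : ℝ) (hs : 0 < s) (hl : 0 ≤ l) (hls : l ^ 2 ≤ 2 + 1 / s) (hx : 0 < x) :
    rho1 l x - x / s * rho l x < 0 := by
  have h := tanh_strict s l x hs hl hls hx
  have e : rho1 l x - x / s * rho l x =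
      rho l x * (l * Real.tanh (l * x) - (2 * Real.tanh x + x / s)) := by
    unfold rho1 rho
    have e1 : Real.sinh (l * x) = Real.tanh (l * x) * Real.cosh (l * x) := by
      rw [tanh_eq, mul_assoc, sech_mul_cosh, mul_one]
    rw [e1]; ring
  rw [e]
  have hr : 0 < rho l x := mul_pos (Real.cosh_pos _) (pow_pos (sech_pos x) 2)
  exact mul_neg_of_pos_of_neg hr (by linarith)

theorem BB_even (σ l s x : ℝ) : BB σ l s (-x) = BB σ l s x := by
  have h0 : P σ a0 (-x) = 1 * P σ a0 x := P_neg σ a0 1 (fun y => by simp [a0, sech_neg]) x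
  have h1 : P σ a1 (-x) = (-1) * P σ a1 x :=
    P_neg σ a1 (-1) (fun y => by simp [a1, sech_neg, Real.tanh_neg]) x
  unfold BB rho1 rho k0
  rw [h0, h1, mul_neg, Real.sinh_neg, Real.cosh_neg, Real.cosh_neg, Real.sinh_neg, sech_neg,
    Real.tanh_neg]
  ring

theorem BB_pos (hW : St_W) (v l s x : ℝ) (hv : 0 ≤ v) (hs : 0 < s) (hl : 0 ≤ l)
    (hls : l ^ 2 ≤ 2 + 1 / s) (hx : x ≠ 0) : 0 < BB (√v) l s x := by
  rcases lt_or_gt_of_ne hx with h | h
  · rw [← BB_even]
    exact mul_pos_of_neg_of_neg (rho_neg s l (-x) hs hl hls (by linarith))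
      (k0_neg hW v (-x) hv (by linarith))
  · exact mul_pos_of_neg_of_neg (rho_neg s l x hs hl hls h) (k0_neg hW v x hv h)

theorem E1_BB_pos (hW : St_W) (v l s : ℝ) (hv : 0 ≤ v) (hs : 0 < s) (hl : 0 ≤ l)
    (hls : l ^ 2 ≤ 2 + 1 / s) : 0 < E1 (fun z => BB (√v) l s (√s * z)) := by
  have hq : 0 < √s := Real.sqrt_pos.2 hs
  unfold E1
  have hnn : ∀ z : ℝ, 0 ≤ BB (√v) l s (√s * z) := by
    intro z
    rcases eq_or_ne (√s * z) 0 with h | h
    · rw [h]
      have : BB (√v) l s 0 = 0 := by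
        unfold BB rho1 k0
        simp
      rw [this]
    · exact (BB_pos hW v l s _ hv hs hl hls h).le
  rw [integral_pos_iff_support_of_nonneg hnn ((EBBB _ l s).integrable' (CBB _ l s) (√s))]
  have hsub : ({0}ᶜ : Set ℝ) ⊆ Function.support (fun z => BB (√v) l s (√s * z)) := by
    intro z hz
    exact (BB_pos hW v l s _ hv hs hl hls (mul_ne_zero hq.ne' hz)).ne'
  refine lt_of_lt_of_le ?_ (measure_mono hsub)
  have : NullSingletonClass (gaussianReal 0 1) := nullSingletonClass_gaussianReal one_ne_zero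
  rw [prob_compl_eq_one_sub (measurableSet_singleton 0), measure_singleton]
  simp

/-- the strict form of THE CLAIM -/
theorem t_CLAIMS' (hS : St_STEIN) (hCM : St_CM) (hW : St_W) : St_CLAIMS := by
  intro s h v hs hh hhs hv
  have hl : 0 ≤ h / s := by positivity
  have hls : (h / s) ^ 2 ≤ 2 + 1 / s := by
    rw [div_pow, div_le_iff₀ (by positivity)]
    have : (2 + 1 / s) * s ^ 2 = 2 * s ^ 2 + s := by field_simp
    rw [this]; exact hhs
  set G : ℝ → ℝ := fun x => sech x * ((P (√v) a0 x - P (√v) a2 x) / 2) with hG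
  have hGc : Continuous G := continuous_sech.mul (((C0 _).sub (C2 _)).div_const 2)
  have hGe : ∀ x, G (-x) = G x := by
    intro x
    have h0 : P (√v) a0 (-x) = 1 * P (√v) a0 x := P_neg _ a0 1 (fun y => by simp [a0, sech_neg]) x
    have h1 : P (√v) a2 (-x) = 1 * P (√v) a2 x := P_neg _ a2 1 (fun y => by simp [a2, sech_neg]) x
    simp only [hG]
    rw [h0, h1, sech_neg]; ring
  have hGb : ∀ x, |G x| ≤ 11 := by
    intro x
    simp only [hG]
    have h0 := abs_le.1 (P_bdd (√v) a0 1 b0 x)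
    have h1 := abs_le.1 (P_bdd (√v) a2 21 b2 x)
    rw [abs_mul, abs_of_pos (sech_pos x)]
    have h2 : |(P (√v) a0 x - P (√v) a2 x) / 2| ≤ 11 := by
      rw [abs_le]; constructor <;> linarith [h0.1, h0.2, h1.1, h1.2]
    have h3 := sech_le_one x
    have h4 := sech_pos x
    have h5 := abs_nonneg ((P (√v) a0 x - P (√v) a2 x) / 2)
    nlinarith
  have e1 : E1 (fun z => sech (h + √s * z) * E1 (fun y => kk (h + √s * z + √v * y))) =
      E1 (fun z => G (h + √s * z)) := by
    unfold E1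
    refine integral_congr_ae (Filter.Eventually.of_forall fun z => ?_)
    simp only [hG]
    have := P_kk (√v) (h + √s * z)
    unfold E1 at this
    rw [this]
  rw [e1, hCM G 11 hGc hGe hGb s h hs]
  refine mul_pos (Real.exp_pos _) ?_
  have e2 : E1 (fun z => Real.cosh (h / s * (√s * z)) * G (√s * z)) =
      E1 (fun z => AA (√v) (h / s) (√s * z)) / 2 := by
    unfold E1
    rw [← integral_div]
    refine integral_congr_ae (Filter.Eventually.of_forall fun z => ?_)
    simp only [hG, AA]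
    ring
  rw [e2, main_id hS (√v) (h / s) s hs]
  have := E1_BB_pos hW v (h / s) s hv.le hs hl hls
  positivity

/-- with the Cameron–Martin piece of helper81 plugged in -/
theorem t_CLAIMS (hS : St_STEIN) (hW : St_W) : St_CLAIMS := t_CLAIMS' hS t_CM hW

/-- the non-strict form -/
theorem t_CLAIM (hS : St_STEIN) (hW : St_W) : St_CLAIM :=
  fun s h v hs hh hhs hv => (t_CLAIMS hS hW s h v hs hh hhs hv).le

end Pool.TH47.AT
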